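import Pool.Agent.helper88.RQ2.Spec

/-!
Project RQ, row C0: the sharper count of circuits by their trace outside the longest line
(a copy of `LineData.cc_ge_trace` of helper6 with one sharper term).
-/

open Set Matroid RadonMin

namespace RadonQ2

section

open scoped Classical

variable {α : Type*} {M : Matroid α} [DecidableEq α] {E' L : Finset α}

variable (D : LineData M E' L)

include D

lemma C0_trace [M.Finite] (hL4 : 4 ≤ L.card) {Y₀ : Finset α}
    (hY₀ : Y₀ ∈ (E' \ L).powersetCard 2)
    (hno : ∀ p ∈ L, ¬ M.IsCircuit ((insert p Y₀ : Finset α) : Set α)) :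
    L.card.choose 3 + (E' \ L).card.choose 2 * (1 + (L.card - 1).choose 2)
      + (E' \ L).card.choose 3 + (L.card - 2) ≤ cc M := by
  set 𝒞 : Finset (Finset α) :=
    E'.powerset.filter (fun s : Finset α => M.IsCircuit (s : Set α)) with h𝒞
  set T1 : Finset (Finset α) := {∅} with hT1
  set T2 : Finset (Finset α) := (E' \ L).powersetCard 2 with hT2
  set T3 : Finset (Finset α) := (E' \ L).powersetCard 3 with hT3
  have hcount : ∀ T : Finset (Finset α), (𝒞.filter (fun s => s \ L ∈ T)).card =
      ∑ Y ∈ T, (𝒞.filter (fun s => s \ L = Y)).card := by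
    intro T
    rw [Finset.card_eq_sum_card_fiberwise (f := fun s => s \ L) (t := T)]
    · apply Finset.sum_congr rfl
      intro Y hY
      congr 1
      ext s
      simp only [Finset.mem_filter]
      constructor
      · rintro ⟨⟨h1, -⟩, h3⟩; exact ⟨h1, h3⟩
      · rintro ⟨h1, h3⟩; exact ⟨⟨h1, by rw [h3]; exact hY⟩, h3⟩
    · intro s hs
      rw [Finset.mem_coe, Finset.mem_filter] at hs
      exact hs.2
  have h1 : (𝒞.filter (fun s => s \ L ∈ T1)).card + (𝒞.filter (fun s => s \ L ∈ T2)).card
      + (𝒞.filter (fun s => s \ L ∈ T3)).card ≤ cc M := by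
    have hd1 : Disjoint (𝒞.filter (fun s => s \ L ∈ T1)) (𝒞.filter (fun s => s \ L ∈ T2)) := by
      rw [Finset.disjoint_filter]
      intro s _ h1 h2
      rw [hT1, Finset.mem_singleton] at h1
      rw [hT2, Finset.mem_powersetCard, h1] at h2
      simp at h2
    have hd2 : Disjoint (𝒞.filter (fun s => s \ L ∈ T1) ∪ 𝒞.filter (fun s => s \ L ∈ T2))
        (𝒞.filter (fun s => s \ L ∈ T3)) := by
      rw [Finset.disjoint_union_left]
      constructor
      · rw [Finset.disjoint_filter]
        intro s _ h1 h2
        rw [hT1, Finset.mem_singleton] at h1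
        rw [hT3, Finset.mem_powersetCard, h1] at h2
        simp at h2
      · rw [Finset.disjoint_filter]
        intro s _ h1 h2
        rw [hT2, Finset.mem_powersetCard] at h1
        rw [hT3, Finset.mem_powersetCard] at h2
        omega
    rw [← Finset.card_union_of_disjoint hd1, ← Finset.card_union_of_disjoint hd2]
    apply card_le_cc
    intro s hs
    simp only [Finset.mem_union, Finset.mem_filter, h𝒞] at hs
    rcases hs with (hs | hs) | hs
    · exact hs.1.2
    · exact hs.1.2
    · exact hs.1.2
  have hout : ∀ (j : ℕ) (Y : Finset α), Y ∈ (E' \ L).powersetCard j →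
      Y ⊆ E' ∧ Disjoint Y L ∧ Y.card = j ∧ ∀ s : Finset α, s ⊆ L → (s ∪ Y) \ L = Y := by
    intro j Y hY
    rw [Finset.mem_powersetCard] at hY
    have hYL : Disjoint Y L := by
      rw [Finset.disjoint_left]
      intro y hy
      exact (Finset.mem_sdiff.mp (hY.1 hy)).2
    refine ⟨hY.1.trans Finset.sdiff_subset, hYL, hY.2, ?_⟩
    intro s hs
    rw [Finset.union_sdiff_distrib, Finset.sdiff_eq_self_of_disjoint hYL,
      Finset.sdiff_eq_empty_iff_subset.mpr hs, Finset.empty_union]
  -- circuits in the line
  have f1 : L.card.choose 3 ≤ (𝒞.filter (fun s => s \ L ∈ T1)).card := by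
    rw [← Finset.card_powersetCard]
    apply Finset.card_le_card
    intro s hs
    rw [Finset.mem_powersetCard] at hs
    rw [Finset.mem_filter, h𝒞, Finset.mem_filter, Finset.mem_powerset]
    refine ⟨⟨hs.1.trans D.sub, D.circuit_in_line hs.1 hs.2⟩, ?_⟩
    rw [hT1, Finset.mem_singleton]
    exact Finset.sdiff_eq_empty_iff_subset.mpr hs.1
  -- circuits with two outside points
  have f2 : (E' \ L).card.choose 2 * (1 + (L.card - 1).choose 2) + (L.card - 2) ≤
      (𝒞.filter (fun s => s \ L ∈ T2)).card := by
    have hsum : ∑ Y ∈ (E' \ L).powersetCard 2,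
        ((1 + (L.card - 1).choose 2) + (if Y = Y₀ then (L.card - 2) else 0)) =
        (E' \ L).card.choose 2 * (1 + (L.card - 1).choose 2) + (L.card - 2) := by
      rw [Finset.sum_add_distrib, Finset.sum_const, Finset.sum_ite_eq', if_pos hY₀,
        Finset.card_powersetCard, smul_eq_mul]
    rw [hcount, ← hsum]
    apply Finset.sum_le_sum
    intro Y hY
    obtain ⟨hYE, hYL, hYc, htr⟩ := hout 2 Y hY
    have hmem : ∀ P : Finset α, P ⊆ L → M.IsCircuit ((P ∪ Y : Finset α) : Set α) →
        P ∪ Y ∈ 𝒞.filter (fun s => s \ L = Y) := by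
      intro P hP hPc
      rw [Finset.mem_filter, h𝒞, Finset.mem_filter, Finset.mem_powerset]
      exact ⟨⟨Finset.union_subset (hP.trans D.sub) hYE, hPc⟩, htr P hP⟩
    have hinj : ∀ P Q : Finset α, P ⊆ L → Q ⊆ L → P ∪ Y = Q ∪ Y → P = Q := by
      intro P Q hP hQ hPQ
      have h1 : (P ∪ Y) ∩ L = P := by
        rw [Finset.union_inter_distrib_right, Finset.disjoint_iff_inter_eq_empty.mp hYL,
          Finset.union_empty, Finset.inter_eq_left.mpr hP]
      have h2 : (Q ∪ Y) ∩ L = Q := by
        rw [Finset.union_inter_distrib_right, Finset.disjoint_iff_inter_eq_empty.mp hYL,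
          Finset.union_empty, Finset.inter_eq_left.mpr hQ]
      rw [← h1, hPQ, h2]
    by_cases hbad : ∃ p ∈ L, M.IsCircuit ((insert p Y : Finset α) : Set α)
    · obtain ⟨p, hp, hpc⟩ := hbad
      have hgood : ∀ b ∈ L.erase p, ¬ M.IsCircuit ((insert b Y : Finset α) : Set α) := by
        intro b hb hbc
        have h3 := D.card_bad_le hY
        rw [Finset.card_le_one] at h3
        have := h3 b (Finset.mem_filter.mpr ⟨Finset.mem_of_mem_erase hb, hbc⟩) p
          (Finset.mem_filter.mpr ⟨hp, hpc⟩)
        rw [this] at hb
        exact Finset.notMem_erase p L hb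
      have hcard : (insert {p} ((L.erase p).powersetCard 2)).card = 1 + (L.card - 1).choose 2 := by
        rw [Finset.card_insert_of_notMem, Finset.card_powersetCard, Finset.card_erase_of_mem hp,
          add_comm]
        rw [Finset.mem_powersetCard]
        simp
      have hYne : Y ≠ Y₀ := by
        rintro rfl
        exact hno p hp hpc
      rw [if_neg hYne, add_zero, ← hcard]
      apply Finset.card_le_card_of_injOn (fun P => P ∪ Y)
      · intro P hP
        rw [Finset.mem_coe, Finset.mem_insert] at hP
        rcases hP with rfl | hP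
        · apply hmem _ (Finset.singleton_subset_iff.mpr hp)
          rw [← Finset.insert_eq]; exact hpc
        · rw [Finset.mem_powersetCard] at hP
          apply hmem _ (hP.1.trans (Finset.erase_subset _ _))
          obtain ⟨x, y, hxy, rfl⟩ := Finset.card_eq_two.mp hP.2
          have hx := hP.1 (Finset.mem_insert_self x _)
          have hy := hP.1 (Finset.mem_insert_of_mem (Finset.mem_singleton_self y))
          have := D.circuit_pair_pair hY (Finset.mem_of_mem_erase hx) (Finset.mem_of_mem_erase hy)
            hxy (hgood x hx) (hgood y hy)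
          rwa [show ({x, y} : Finset α) ∪ Y = insert x (insert y Y) by ext z; simp]
      · intro P hP Q hQ hPQ
        have hsub : ∀ P ∈ insert {p} ((L.erase p).powersetCard 2), P ⊆ L := by
          intro P hP
          rw [Finset.mem_insert] at hP
          rcases hP with rfl | hP
          · exact Finset.singleton_subset_iff.mpr hp
          · exact (Finset.mem_powersetCard.mp hP).1.trans (Finset.erase_subset _ _)
        exact hinj P Q (hsub P hP) (hsub Q hQ) hPQ
    · push Not at hbad
      have hcard : (1 + (L.card - 1).choose 2) + (if Y = Y₀ then (L.card - 2) else 0) ≤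
          (L.powersetCard 2).card := by
        have hite : (if Y = Y₀ then (L.card - 2) else 0) ≤ L.card - 2 := by
          split_ifs
          · exact le_refl _
          · exact Nat.zero_le _
        rw [Finset.card_powersetCard]
        obtain ⟨m, hm⟩ : ∃ m, L.card = m + 1 := ⟨L.card - 1, by omega⟩
        rw [hm] at hite ⊢
        rw [show (m + 1).choose 2 = m.choose 1 + m.choose 2 from Nat.choose_succ_succ' m 1]
        simp only [Nat.add_sub_cancel, Nat.choose_one_right]
        omega
      refine hcard.trans ?_
      apply Finset.card_le_card_of_injOn (fun P => P ∪ Y)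
      · intro P hP
        rw [Finset.mem_coe, Finset.mem_powersetCard] at hP
        apply hmem _ hP.1
        obtain ⟨x, y, hxy, rfl⟩ := Finset.card_eq_two.mp hP.2
        have hx := hP.1 (Finset.mem_insert_self x _)
        have hy := hP.1 (Finset.mem_insert_of_mem (Finset.mem_singleton_self y))
        have := D.circuit_pair_pair hY hx hy hxy (hbad x hx) (hbad y hy)
        rwa [show ({x, y} : Finset α) ∪ Y = insert x (insert y Y) by ext z; simp]
      · intro P hP Q hQ hPQ
        rw [Finset.mem_coe, Finset.mem_powersetCard] at hP hQ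
        exact hinj P Q hP.1 hQ.1 hPQ
  -- circuits with three outside points
  have f3 : (E' \ L).card.choose 3 ≤ (𝒞.filter (fun s => s \ L ∈ T3)).card := by
    rw [hcount, ← Finset.card_powersetCard, Finset.card_eq_sum_ones]
    apply Finset.sum_le_sum
    intro W hW
    obtain ⟨hWE, hWL, hWc, htr⟩ := hout 3 W hW
    rw [Nat.succ_le_iff, Finset.card_pos]
    by_cases hc : M.IsCircuit (W : Set α)
    · refine ⟨W, ?_⟩
      rw [Finset.mem_filter, h𝒞, Finset.mem_filter, Finset.mem_powerset]
      refine ⟨⟨hWE, hc⟩, ?_⟩
      have := htr ∅ (Finset.empty_subset _)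
      rwa [Finset.empty_union] at this
    · -- a good point of the line
      have hex : ∃ b ∈ L, ∀ w ∈ W, ¬ M.IsCircuit ((insert b (W.erase w) : Finset α) : Set α) := by
        by_contra hcon
        push Not at hcon
        have h2 : L ⊆ W.biUnion (fun w =>
            L.filter (fun b => M.IsCircuit ((insert b (W.erase w) : Finset α) : Set α))) := by
          intro b hb
          obtain ⟨w, hw, hbw⟩ := hcon b hb
          rw [Finset.mem_biUnion]
          exact ⟨w, hw, Finset.mem_filter.mpr ⟨hb, hbw⟩⟩
        have h3 := Finset.card_le_card h2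
        have h4 : (W.biUnion (fun w => L.filter
            (fun b => M.IsCircuit ((insert b (W.erase w) : Finset α) : Set α)))).card ≤ 3 := by
          refine Finset.card_biUnion_le.trans ?_
          rw [← hWc, Finset.card_eq_sum_ones]
          apply Finset.sum_le_sum
          intro w hw
          apply D.card_bad_le
          rw [Finset.mem_powersetCard]
          refine ⟨(Finset.erase_subset _ _).trans (Finset.mem_powersetCard.mp hW).1, ?_⟩
          rw [Finset.card_erase_of_mem hw, hWc]
        omega
      obtain ⟨b, hb, hbW⟩ := hex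
      have hbW' : b ∉ W := fun h => Finset.disjoint_left.mp hWL h hb
      refine ⟨insert b W, ?_⟩
      rw [Finset.mem_filter, h𝒞, Finset.mem_filter, Finset.mem_powerset]
      refine ⟨⟨Finset.insert_subset (D.sub hb) hWE, ?_⟩, ?_⟩
      · apply circuit_of_four D.simp D.rk_E.le (D.sub_E (Finset.insert_subset (D.sub hb) hWE))
        · rw [ncard_coe_finset, Finset.card_insert_of_notMem hbW', hWc]
        · intro x hx
          rw [← Finset.coe_erase]
          have hx' : x ∈ insert b W := by exact_mod_cast hx
          rw [Finset.mem_insert] at hx'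
          rcases hx' with rfl | hx'
          · rw [Finset.erase_insert hbW']; exact hc
          · have hne : x ≠ b := fun h => hbW' (h ▸ hx')
            rw [Finset.erase_insert_of_ne hne.symm]
            exact hbW x hx'
      · have := htr {b} (Finset.singleton_subset_iff.mpr hb)
        rwa [← Finset.insert_eq] at this
  omega

end

theorem C0_proof : C0_stmt := by
  intro α _ M _ E' L D hL4 Y hY hno
  exact C0_trace D hL4 hY hno

end RadonQ2
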